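import Mathlib
import Pool.Agent.H524.OddB
import Pool.Agent.H617.PF.B

/-!
Prime-free intervals near every `p`-th power, odd characteristic `p`.
-/

namespace Pool.Agent.H617.PF

set_option linter.unusedSectionVars false

open Polynomial
open Pool.Agent.H524 (lcmPoly monic_lcmPoly natDegree_lcmPoly_mul dvd_lcmPoly odd_core
  idx card_idx twistProd monic_twistProd natDegree_twistProd twist_dvd_twistProd)

variable {K : Type*} [Field K] [Fintype K]

/-- The size of the modulus. -/
def size (p q k : ℕ) : ℕ := (p * (k + 4) + 2) * q ^ ((p - 1) * (k + 4))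

lemma near_monic_odd (p : ℕ) [hp : Fact p.Prime] [CharP K p] (hp2 : p ≠ 2) (k s : ℕ) (hk : 1 ≤ k)
    (Y : K[X]) (hY : Y.Monic) (hdeg : size p (Fintype.card K) k + 1 ≤ Y.natDegree) :
    ∃ A : K[X], A.Monic ∧ A.natDegree = s + p * Y.natDegree ∧
      (A - X ^ s * Y ^ p).natDegree ≤ s + p * (size p (Fintype.card K) k + 1) ∧
      ∀ B : K[X], (B - A).degree < ((p * k : ℕ) : WithBot ℕ) → ¬ Irreducible B := by
  have hq : 2 ≤ Fintype.card K := Fintype.one_lt_card
  have hp3 : 3 ≤ p := by
    have := hp.out.two_le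
    omega
  set T := size p (Fintype.card K) k with hT
  have hT0 : p * (k + 4) + 2 ≤ T := by
    rw [hT, size]
    exact Nat.le_mul_of_pos_right _ (Nat.pow_pos (by omega))
  set m := Y.natDegree with hm
  set n := s + p * m with hn
  have hnT : p * (T + 1) ≤ n := by
    rw [hn]
    have := Nat.mul_le_mul_left p hdeg
    omega
  have hTn : T + 1 ≤ p * (T + 1) := Nat.le_mul_of_pos_left _ (by omega)
  -- the degree of the block
  obtain ⟨d, hd1, hd2, hd3⟩ : ∃ d, p * k ≤ d ∧ d < p * k + 4 * p ∧ (n - d) % (4 * p) = 1 := by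
    have hbig : p * k + 4 * p ≤ n := by
      have h1 : p * (k + 4) = p * k + 4 * p := by ring
      omega
    refine ⟨p * k + (n - p * k - 1) % (4 * p), by omega, ?_, ?_⟩
    · have := Nat.mod_lt (n - p * k - 1) (by omega : 0 < 4 * p)
      omega
    · have h1 := Nat.div_add_mod (n - p * k - 1) (4 * p)
      have h2 := Nat.mod_lt (n - p * k - 1) (by omega : 0 < 4 * p)
      have h3 : n - (p * k + (n - p * k - 1) % (4 * p)) =
          1 + 4 * p * ((n - p * k - 1) / (4 * p)) := by omega
      rw [h3, Nat.add_mul_mod_self_left, Nat.mod_eq_of_lt (by omega)]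
  have hdn' : d < n := by
    have h1 : p * (k + 4) = p * k + 4 * p := by ring
    omega
  set P := twistProd K p d n * lcmPoly K (d / 2) with hP
  have hPm : P.Monic := (monic_twistProd p d n).mul (monic_lcmPoly K _)
  have hcard : (idx p d n).card ≤ (p - 1) * (k + 4) := by
    have h1 := card_idx p d n (by omega)
    have h2 : (p - 1) * (d + 1) ≤ (p - 1) * (p * (k + 4)) := by
      apply Nat.mul_le_mul_left
      have h3 : p * (k + 4) = p * k + 4 * p := by ring
      omega
    have h4 : p * (idx p d n).card ≤ p * ((p - 1) * (k + 4)) := by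
      calc p * (idx p d n).card ≤ (p - 1) * (d + 1) := h1
        _ ≤ (p - 1) * (p * (k + 4)) := h2
        _ = p * ((p - 1) * (k + 4)) := by ring
    exact Nat.le_of_mul_le_mul_left h4 (by omega)
  have hL : P.natDegree ≤ T := by
    rw [hP, (monic_twistProd p d n).natDegree_mul (monic_lcmPoly K _), natDegree_twistProd]
    have h1 : (lcmPoly K (d / 2)).natDegree ≤ 2 * Fintype.card K ^ (d / 2) := lcm_bound _
    have h3 : p * (k + 4) = p * k + 4 * p := by ring
    have h2 : Fintype.card K ^ (d / 2) ≤ Fintype.card K ^ ((p - 1) * (k + 4)) := by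
      apply Nat.pow_le_pow_right (by omega)
      obtain ⟨r, hr⟩ : ∃ r, p = r + 2 := ⟨p - 2, by omega⟩
      have h4 : 2 * ((p - 1) * (k + 4)) = p * (k + 4) + r * (k + 4) := by
        rw [hr, show r + 2 - 1 = r + 1 by omega]; ring
      omega
    have h5 : Fintype.card K ^ (idx p d n).card ≤ Fintype.card K ^ ((p - 1) * (k + 4)) :=
      Nat.pow_le_pow_right (by omega) hcard
    have h6 : d * Fintype.card K ^ (idx p d n).card ≤
        p * (k + 4) * Fintype.card K ^ ((p - 1) * (k + 4)) :=
      Nat.mul_le_mul (by omega) h5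
    rw [hT, size, add_mul]
    omega
  set Y₁ := Y /ₘ X ^ 1 with hY₁
  have hY₁d : Y₁.natDegree = m - 1 := by
    rw [hY₁, natDegree_divByMonic _ (monic_X_pow 1), natDegree_X_pow]
  have hdec : Y %ₘ X ^ 1 + X ^ 1 * Y₁ = Y := modByMonic_add_div Y (X ^ 1)
  have hR : (Y %ₘ X ^ 1).degree < ((1 : ℕ) : WithBot ℕ) := by
    have h := degree_modByMonic_lt Y (monic_X_pow (R := K) 1)
    rwa [degree_X_pow] at h
  have hY₁m : Y₁.Monic := by
    have h1 : (X ^ 1 * Y₁).leadingCoeff = Y.leadingCoeff := by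
      rw [← hdec]
      rw [leadingCoeff_add_of_degree_lt]
      refine lt_of_lt_of_le hR ?_
      have h3 : Y₁ ≠ 0 := by
        intro h0
        rw [h0, natDegree_zero] at hY₁d
        omega
      rw [degree_eq_natDegree (mul_ne_zero (pow_ne_zero _ X_ne_zero) h3),
        natDegree_mul (pow_ne_zero _ X_ne_zero) h3, natDegree_X_pow]
      exact_mod_cast Nat.le_add_right _ _
    rw [leadingCoeff_mul, leadingCoeff_X_pow, one_mul, hY.leadingCoeff] at h1
    exact h1
  set R₁ := Y₁ %ₘ P with hR₁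
  have hdec₁ : R₁ + P * (Y₁ /ₘ P) = Y₁ := modByMonic_add_div Y₁ P
  have hR₁d : R₁.degree < P.degree := degree_modByMonic_lt Y₁ hPm
  set G := P * (Y₁ /ₘ P) with hG
  have hGY : G = Y₁ - R₁ := by rw [← hdec₁]; ring
  have hltY : R₁.degree < Y₁.degree := by
    refine lt_of_lt_of_le hR₁d ?_
    rw [degree_eq_natDegree hPm.ne_zero, degree_eq_natDegree hY₁m.ne_zero, hY₁d]
    exact_mod_cast (by omega : P.natDegree ≤ m - 1)
  have hGm : G.Monic := by
    rw [hGY]
    exact hY₁m.sub_of_left hltY
  have hGd : G.natDegree = m - 1 := by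
    rw [hGY, natDegree_sub_eq_left_of_natDegree_lt, hY₁d]
    by_cases h0 : R₁ = 0
    · rw [h0, natDegree_zero, hY₁d]; omega
    · exact natDegree_lt_natDegree h0 hltY
  have hns : n = (s + p) + p * G.natDegree := by
    rw [hGd, hn]
    obtain ⟨r, hr⟩ : ∃ r, m = r + 1 := ⟨m - 1, by omega⟩
    rw [hr, Nat.add_sub_cancel]
    ring
  set F := X ^ (s + p) * G ^ p with hF
  have hFm : F.Monic := (monic_X_pow _).mul (hGm.pow p)
  have hFd : F.natDegree = n := by
    rw [hF, (monic_X_pow _).natDegree_mul (hGm.pow p), natDegree_X_pow, hGm.natDegree_pow, ← hns]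
  have hpK : (p : K) = 0 := CharP.cast_eq_zero K p
  have hsn : ((s + p : ℕ) : K) = (n : K) := by
    rw [hns]; push_cast; rw [hpK]; ring
  have hdn : (d : K) - n ≠ 0 := by
    intro h
    have h1 : (d : K) = n := sub_eq_zero.mp h
    rw [CharP.natCast_eq_natCast K p] at h1
    have h2 : (n - d) % p = 1 % p := by
      have h3 : (n - d) % p = (n - d) % (4 * p) % p :=
        (Nat.mod_mod_of_dvd _ (Dvd.intro_left 4 rfl)).symm
      rw [h3, hd3]
    have h4 : p ∣ n - d := (Nat.modEq_iff_dvd' hdn'.le).mp h1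
    rw [Nat.mod_eq_zero_of_dvd h4, Nat.mod_eq_of_lt (by omega : 1 < p)] at h2
    omega
  refine ⟨F + X ^ d, ?_, ?_, ?_, ?_⟩
  · apply hFm.add_of_left
    rw [degree_X_pow, degree_eq_natDegree hFm.ne_zero, hFd]
    exact_mod_cast hdn'
  · rw [natDegree_add_eq_left_of_natDegree_lt, hFd]
    rw [natDegree_X_pow, hFd]
    exact hdn'
  · have he : F + X ^ d - X ^ s * Y ^ p = X ^ d - X ^ s * (Y %ₘ X ^ 1 + X ^ 1 * R₁) ^ p := by
      have hGY2 : Y %ₘ X ^ 1 + X ^ 1 * R₁ = Y - X ^ 1 * G := by
        rw [hGY]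
        linear_combination hdec
      rw [hGY2, sub_pow_char, hF, mul_pow]
      ring
    rw [he]
    have hdd : (Y %ₘ X ^ 1 + X ^ 1 * R₁).natDegree ≤ 1 + P.natDegree := by
      refine (natDegree_add_le _ _).trans (max_le ?_ ?_)
      · have h6 : (Y %ₘ X ^ 1).natDegree ≤ 1 := natDegree_le_of_degree_le hR.le
        omega
      · refine natDegree_mul_le.trans ?_
        rw [natDegree_X_pow]
        have h7 : R₁.natDegree ≤ P.natDegree :=
          natDegree_le_natDegree hR₁d.le
        omega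
    refine (natDegree_sub_le _ _).trans (max_le ?_ ?_)
    · rw [natDegree_X_pow]
      have h3 : p * (k + 4) = p * k + 4 * p := by ring
      omega
    · refine natDegree_mul_le.trans ?_
      rw [natDegree_X_pow]
      have h8 : ((Y %ₘ X ^ 1 + X ^ 1 * R₁) ^ p).natDegree ≤ p * (1 + P.natDegree) :=
        natDegree_pow_le.trans (Nat.mul_le_mul_left p hdd)
      have h9 : p * (1 + P.natDegree) ≤ p * (T + 1) := Nat.mul_le_mul_left p (by omega)
      omega
  · intro B hB
    have h1 : B = X ^ (s + p) * G ^ p + (X ^ d + (B - (F + X ^ d))) := by rw [← hF]; ring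
    have hB' : (B - (F + X ^ d)).degree < (d : WithBot ℕ) :=
      lt_of_lt_of_le hB (by exact_mod_cast hd1)
    rw [h1]
    have hHm : (X ^ d + (B - (F + X ^ d))).Monic := monic_X_pow_add hB'
    have hHd : (X ^ d + (B - (F + X ^ d))).natDegree = d := by
      rw [natDegree_add_eq_left_of_degree_lt, natDegree_X_pow]
      rw [degree_X_pow]
      exact hB'
    generalize (X ^ d + (B - (F + X ^ d))) = H at hHm hHd
    have hpk : 1 ≤ p * k := Nat.mul_pos (by omega) (by omega)
    refine odd_core p hp2 G H hGm hHm d (s + p) n hHd (by omega) (by omega) hns hdn' (by omega)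
      ?_ ?_ (Or.inl hd3)
    · intro B' hB0 hBd
      have hdvd : B' ∣ P := dvd_mul_of_dvd_right (dvd_lcmPoly B' hB0 hBd) _
      exact hdvd.trans (Dvd.intro _ rfl)
    · have hdvd : (Pool.Agent.H524.euler H - C ((s + p : ℕ) : K) * H) ∣ P := by
        rw [hsn]
        exact dvd_mul_of_dvd_left (twist_dvd_twistProd p d n H hHm hHd hdn) _
      exact hdvd.trans (Dvd.intro _ rfl)

end Pool.Agent.H617.PF
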