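import Mathlib
import Pool.Agent.H617.PF.C

/-!
Prime-free intervals near every `p`-th power, odd characteristic: arbitrary leading coefficients,
and the number of the intervals.
-/

namespace Pool.Agent.H617.PF

set_option linter.unusedSectionVars false

open Polynomial

variable {K : Type*} [Field K] [Fintype K]

lemma near_all_odd (p : ℕ) [hp : Fact p.Prime] [CharP K p] (hp2 : p ≠ 2) (k s : ℕ) (hk : 1 ≤ k)
    (Y : K[X]) (hdeg : size p (Fintype.card K) k + 1 ≤ Y.natDegree) :
    ∃ A : K[X], A.natDegree = s + p * Y.natDegree ∧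
      (A - X ^ s * Y ^ p).natDegree ≤ s + p * (size p (Fintype.card K) k + 1) ∧
      ∀ B : K[X], (B - A).degree < ((p * k : ℕ) : WithBot ℕ) → ¬ Irreducible B := by
  have hY0 : Y ≠ 0 := by
    intro h
    rw [h, natDegree_zero] at hdeg
    omega
  set l := Y.leadingCoeff with hl
  have hl0 : l ≠ 0 := leadingCoeff_ne_zero.mpr hY0
  set Z := C l⁻¹ * Y with hZ
  have hZm : Z.Monic := by
    rw [Monic, hZ, leadingCoeff_mul, leadingCoeff_C, ← hl, inv_mul_cancel₀ hl0]
  have hZd : Z.natDegree = Y.natDegree := natDegree_C_mul (inv_ne_zero hl0)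
  obtain ⟨A, hA1, hA2, hA3, hA4⟩ := near_monic_odd p hp2 k s hk Z hZm (by rw [hZd]; exact hdeg)
  have hl4 : l ^ p ≠ 0 := pow_ne_zero _ hl0
  have hYZ : C l * Z = Y := by
    rw [hZ, ← mul_assoc, ← C_mul, mul_inv_cancel₀ hl0, C_1, one_mul]
  refine ⟨C (l ^ p) * A, ?_, ?_, ?_⟩
  · rw [natDegree_C_mul hl4, hA2, hZd]
  · have h1 : C (l ^ p) * A - X ^ s * Y ^ p = C (l ^ p) * (A - X ^ s * Z ^ p) := by
      rw [← hYZ, C_pow]
      ring
    rw [h1, natDegree_C_mul hl4]
    exact hA3
  · intro B hB hirr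
    have h2 : C ((l ^ p)⁻¹) * B - A = C ((l ^ p)⁻¹) * (B - C (l ^ p) * A) := by
      rw [mul_sub, ← mul_assoc, ← C_mul, inv_mul_cancel₀ hl4, C_1, one_mul]
    have h3 : (C ((l ^ p)⁻¹) * B - A).degree < ((p * k : ℕ) : WithBot ℕ) := by
      rw [h2, degree_C_mul (inv_ne_zero hl4)]
      exact hB
    refine hA4 _ h3 ?_
    have hu : IsUnit (C ((l ^ p)⁻¹) : K[X]) := isUnit_C.mpr (inv_ne_zero hl4).isUnit
    exact (irreducible_isUnit_mul hu).mpr hirr

lemma count_odd (p : ℕ) [hp : Fact p.Prime] [CharP K p] (hp2 : p ≠ 2) (k n : ℕ) (hk : 1 ≤ k)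
    (hn : p * (size p (Fintype.card K) k + 2) ≤ n) :
    ∃ S : Finset K[X], S.card = Fintype.card K ^ (n / p - (size p (Fintype.card K) k + 2)) ∧
      (∀ A ∈ S, A.Monic ∧ A.natDegree = n ∧
        ∀ B : K[X], (B - A).degree < ((p * k : ℕ) : WithBot ℕ) → ¬ Irreducible B) ∧
      ∀ A ∈ S, ∀ A' ∈ S, A ≠ A' →
        p * size p (Fintype.card K) k < (A - A').natDegree := by
  classical
  have hp3 : 3 ≤ p := by
    have := hp.out.two_le
    omega
  set T := size p (Fintype.card K) k with hT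
  set w := T + 2 with hw
  set s := n % p with hs
  set m := n / p with hm
  have hnm : n = s + p * m := (Nat.mod_add_div n p).symm
  have hmw : w ≤ m := by
    rw [hm]
    exact (Nat.le_div_iff_mul_le (by omega)).mpr (by rw [mul_comm]; exact hn)
  set N := m - w with hN
  have hY : ∀ v : Fin N → K, (X ^ w * poly N v).Monic ∧ (X ^ w * poly N v).natDegree = m := by
    intro v
    refine ⟨(monic_X_pow w).mul (poly_monic N v), ?_⟩
    rw [(monic_X_pow w).natDegree_mul (poly_monic N v), natDegree_X_pow, poly_natDegree]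
    omega
  have hex : ∀ v : Fin N → K, ∃ A : K[X], A.Monic ∧ A.natDegree = n ∧
      (A - X ^ s * (X ^ w * poly N v) ^ p).natDegree ≤ s + p * (T + 1) ∧
      ∀ B : K[X], (B - A).degree < ((p * k : ℕ) : WithBot ℕ) → ¬ Irreducible B := by
    intro v
    obtain ⟨A, h1, h2, h3, h4⟩ := near_monic_odd p hp2 k s hk (X ^ w * poly N v) (hY v).1
      (by rw [(hY v).2]; omega)
    exact ⟨A, h1, by rw [h2, (hY v).2, ← hnm], h3, h4⟩
  choose A hA1 hA2 hA3 hA4 using hex
  have hsep : ∀ v v' : Fin N → K, v ≠ v' → p * T < (A v - A v').natDegree := by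
    intro v v' hv
    have hne : poly N v - poly N v' ≠ 0 := by
      intro h
      exact hv (poly_injective N (sub_eq_zero.mp h))
    have h5 : A v - A v' = X ^ (s + w * p) * (poly N v - poly N v') ^ p +
        ((A v - X ^ s * (X ^ w * poly N v) ^ p) - (A v' - X ^ s * (X ^ w * poly N v') ^ p)) := by
      rw [sub_pow_char, pow_add, mul_pow, mul_pow, ← pow_mul]
      ring
    have h6 : ((A v - X ^ s * (X ^ w * poly N v) ^ p) -
        (A v' - X ^ s * (X ^ w * poly N v') ^ p)).natDegree ≤ s + p * (T + 1) :=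
      (natDegree_sub_le _ _).trans (max_le (hA3 v) (hA3 v'))
    have h8 : w * p = p * (T + 1) + p := by rw [hw]; ring
    have h9 : p * (T + 1) = p * T + p := by ring
    have h7 : s + w * p ≤ (X ^ (s + w * p) * (poly N v - poly N v') ^ p).natDegree := by
      rw [natDegree_mul (pow_ne_zero _ X_ne_zero) (pow_ne_zero _ hne), natDegree_X_pow]
      omega
    rw [h5, natDegree_add_eq_left_of_natDegree_lt (by omega)]
    omega
  have hinj : Function.Injective A := by
    intro v v' h
    by_contra hv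
    have h1 := hsep v v' hv
    rw [h, sub_self, natDegree_zero] at h1
    omega
  refine ⟨Finset.univ.image A, ?_, ?_, ?_⟩
  · rw [Finset.card_image_of_injective _ hinj, Finset.card_univ, Fintype.card_fun,
      Fintype.card_fin]
  · intro B hB
    obtain ⟨v, -, rfl⟩ := Finset.mem_image.mp hB
    exact ⟨hA1 v, hA2 v, hA4 v⟩
  · intro B hB B' hB' hne
    obtain ⟨v, -, rfl⟩ := Finset.mem_image.mp hB
    obtain ⟨v', -, rfl⟩ := Finset.mem_image.mp hB'
    exact hsep v v' (fun h => hne (by rw [h]))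

end Pool.Agent.H617.PF
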